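import Pool.Agent.Helper64.BKA.Stmts3

/-!
# CON: multiplicative relations between meromorphic functions are preserved by continuation
-/

set_option autoImplicit false

open scoped Classical Topology
open Filter

namespace BKA

theorem st_CON : ST_CON := by
  intro r n Λ σ₀ hmer hhalf
  set s₀ : ℂ := ((σ₀ + 1 : ℝ) : ℂ) with hs₀
  have hopen : IsOpen {s : ℂ | σ₀ < s.re} :=
    isOpen_lt continuous_const Complex.continuous_re
  have hs₀mem : s₀ ∈ {s : ℂ | σ₀ < s.re} := by
    simp only [Set.mem_ofPred_eq, hs₀, Complex.ofReal_re]; linarith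
  have hnhds : ∀ᶠ s in 𝓝[≠] s₀, σ₀ < s.re :=
    mem_nhdsWithin_of_mem_nhds (hopen.mem_nhds hs₀mem)
  have hmer' : ∀ i s, MeromorphicAt (Λ i) s := fun i s => hmer i s (Set.mem_univ _)
  have hord : ∀ i s, meromorphicOrderAt (Λ i) s ≠ ⊤ := by
    intro i s
    refine (hmer i).meromorphicOrderAt_ne_top_of_isPreconnected isPreconnected_univ
      (Set.mem_univ s₀) (Set.mem_univ s) ?_
    rw [meromorphicOrderAt_ne_top_iff_eventually_ne_zero (hmer' i s₀)]
    filter_upwards [hnhds] with s hs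
    exact (hhalf s hs).1 i
  have hΦmer : ∀ s, MeromorphicAt (fun s => ∏ i, (Λ i s) ^ (n i)) s := by
    intro s
    have := MeromorphicAt.fun_prod (s := Finset.univ) (F := fun i s => (Λ i s) ^ (n i)) (x := s)
      (fun i _ => (hmer' i s).fun_zpow (n i))
    exact this
  have hΦ1 : ∀ s, ∀ᶠ z in 𝓝[≠] s, (∏ i, (Λ i z) ^ (n i)) = 1 := by
    have hmer1 : MeromorphicOn (fun s => (∏ i, (Λ i s) ^ (n i)) - 1) Set.univ := fun s _ =>
      (hΦmer s).fun_sub (MeromorphicAt.const 1 s)
    have htop₀ : meromorphicOrderAt (fun s => (∏ i, (Λ i s) ^ (n i)) - 1) s₀ = ⊤ := by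
      rw [meromorphicOrderAt_eq_top_iff]
      filter_upwards [hnhds] with s hs
      rw [sub_eq_zero, ← (hhalf s hs).2]
    intro s
    have htop : meromorphicOrderAt (fun s => (∏ i, (Λ i s) ^ (n i)) - 1) s = ⊤ := by
      by_contra hne
      exact hmer1.meromorphicOrderAt_ne_top_of_isPreconnected isPreconnected_univ
        (Set.mem_univ s) (Set.mem_univ s₀) hne htop₀
    rw [meromorphicOrderAt_eq_top_iff] at htop
    filter_upwards [htop] with z hz
    exact sub_eq_zero.mp hz
  refine ⟨hord, fun s => ?_, fun s hs => ?_⟩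
  · have h1 : meromorphicOrderAt (fun s => ∏ i, (Λ i s) ^ (n i)) s =
        ∑ i, (n i : WithTop ℤ) * meromorphicOrderAt (Λ i) s := by
      have := meromorphicOrderAt_fun_prod (s := Finset.univ) (f := fun i s => (Λ i s) ^ (n i))
        (x := s) (fun i _ => (hmer' i s).fun_zpow (n i))
      rw [this]
      exact Finset.sum_congr rfl fun i _ => fun_meromorphicOrderAt_zpow (hmer' i s)
    have h2 : meromorphicOrderAt (fun s => ∏ i, (Λ i s) ^ (n i)) s = 0 := by
      rw [meromorphicOrderAt_congr (f₂ := fun _ => (1 : ℂ)) (hΦ1 s), meromorphicOrderAt_const]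
      simp
    have h3 : ((∑ i, n i * (meromorphicOrderAt (Λ i) s).untop₀ : ℤ) : WithTop ℤ) =
        ∑ i, (n i : WithTop ℤ) * meromorphicOrderAt (Λ i) s := by
      push_cast
      refine Finset.sum_congr rfl fun i _ => ?_
      rw [WithTop.coe_untop₀_of_ne_top (hord i s)]
    have h4 : ((∑ i, n i * (meromorphicOrderAt (Λ i) s).untop₀ : ℤ) : WithTop ℤ) = (0 : ℤ) := by
      rw [h3, ← h1, h2]; rfl
    exact_mod_cast h4
  · have hcont : ContinuousAt (fun s => ∏ i, (Λ i s) ^ (n i)) s := by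
      refine tendsto_finsetProd _ fun i _ => ?_
      exact ((hs i).1.continuousAt).zpow₀ (n i) (Or.inl (hs i).2)
    have h1 : Tendsto (fun s => ∏ i, (Λ i s) ^ (n i)) (𝓝[≠] s) (𝓝 (∏ i, (Λ i s) ^ (n i))) :=
      hcont.tendsto.mono_left nhdsWithin_le_nhds
    have h2 : Tendsto (fun s => ∏ i, (Λ i s) ^ (n i)) (𝓝[≠] s) (𝓝 1) :=
      tendsto_const_nhds.congr' (by filter_upwards [hΦ1 s] with z hz; exact hz.symm)
    exact tendsto_nhds_unique h1 h2

end BKA
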