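import Pool.Agent.Helper64.BKA.Stmts2

/-!
# DEL2: comparison of `Δ_K` and `Δ_F`
-/

set_option autoImplicit false

open NumberField
open scoped Classical

namespace BKA

theorem st_DEL2 (del : ST_DEL) (trc : ST_TRC) : ST_DEL2 := by
  intro F K _ _ _ _ _ δ δ' hF hδ hδ'
  by_cases hCM : ∃ D : maximalRealSubfield F, IsCMElt F D
  · obtain ⟨a, ha, h⟩ := del F K δ δ' 1 hF hδ hδ' (Or.inr hCM)
    refine ⟨a, ha, ?_⟩
    rwa [pow_one, pow_one] at h
  · have h1 : δ = 1 := by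
      rcases hδ with ⟨D, hD, -⟩ | ⟨-, h⟩
      · exact absurd ⟨D, hD⟩ hCM
      · exact h
    rw [h1, one_pow]
    rcases hδ' with ⟨D, hD, y, hy, h⟩ | ⟨-, h⟩
    · obtain ⟨t, ht⟩ := trc F K hF hCM ⟨D, hD⟩
      have h2 : Module.finrank (maximalRealSubfield K) K / 2 = 2 * t := by omega
      have hD0 : D ≠ 0 := by
        rintro rfl
        obtain ⟨φ⟩ : Nonempty (K →+* ℂ) := inferInstance
        have := hD.1 φ
        simp at this
      refine ⟨(Algebra.norm ℚ D) ^ t, pow_ne_zero _ ((Algebra.norm_ne_zero_iff).2 hD0), ?_⟩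
      rw [h, h2, pow_mul, hy]
      push_cast
      ring
    · exact ⟨1, one_ne_zero, by rw [h]; simp⟩

end BKA
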