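import Pool.Agent.Helper64.BKA.Stmts2

/-!
# EULT: the logarithm of the Euler factor of a representation of a finite group
-/

set_option autoImplicit false

open scoped Classical
open Polynomial

namespace BKA

namespace EULT19

variable {r : ℕ}

lemma card_roots (A : Matrix (Fin r) (Fin r) ℂ) : A.charpoly.roots.card = r := by
  rw [← (IsAlgClosed.splits A.charpoly).natDegree_eq_card_roots, Matrix.charpoly_natDegree_eq_dim]
  simp

/-- `det (x - c A)` in terms of the roots of the characteristic polynomial -/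
lemma det_sub_smul (A : Matrix (Fin r) (Fin r) ℂ) (x c : ℂ) :
    (x • (1 : Matrix (Fin r) (Fin r) ℂ) - c • A).det =
      (A.charpoly.roots.map fun a => x - c * a).prod := by
  have hcard := card_roots A
  by_cases hc : c = 0
  · subst hc
    simp [hcard]
  · have h1 : x • (1 : Matrix (Fin r) (Fin r) ℂ) - c • A =
        c • (Matrix.scalar (Fin r) (x / c) - A) := by
      rw [smul_sub]
      congr 1
      ext i j
      by_cases hij : i = j
      · subst hij
        simp [Matrix.scalar, mul_div_cancel₀, hc]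
      · simp [Matrix.scalar, hij]
    have h2 : (Matrix.scalar (Fin r) (x / c) - A).det =
        (A.charpoly.roots.map fun a => x / c - a).prod := by
      rw [← Matrix.eval_charpoly]
      conv_lhs => rw [(IsAlgClosed.splits A.charpoly).eq_prod_roots_of_monic A.charpoly_monic]
      rw [Polynomial.eval_multiset_prod, Multiset.map_map]
      congr 1
      refine Multiset.map_congr rfl fun a _ => ?_
      simp
    have h3 : (A.charpoly.roots.map fun a => x - c * a).prod =
        (A.charpoly.roots.map fun _ => c).prod *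
          (A.charpoly.roots.map fun a => x / c - a).prod := by
      rw [← Multiset.prod_map_mul]
      congr 1
      refine Multiset.map_congr rfl fun a _ => ?_
      field_simp
    rw [h1, Matrix.det_smul, h2, Fintype.card_fin, h3, Multiset.map_const', Multiset.prod_replicate,
      hcard]

/-- the eigenvalues of `A ^ k` -/
lemma roots_pow (A : Matrix (Fin r) (Fin r) ℂ) (k : ℕ) (hk : 0 < k) :
    (A ^ k).charpoly.roots = A.charpoly.roots.map fun a => a ^ k := by
  have hpoly : (A ^ k).charpoly =
      (A.charpoly.roots.map fun a => X - C (a ^ k)).prod := by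
    refine Polynomial.funext fun z => ?_
    obtain ⟨x, rfl⟩ := IsAlgClosed.exists_pow_nat_eq z hk
    obtain ⟨ζ, hζ⟩ : ∃ ζ : ℂ, IsPrimitiveRoot ζ k := ⟨_, Complex.isPrimitiveRoot_exp k hk.ne'⟩
    -- the polynomial identity
    have hid : (C (x ^ k) - X ^ k : ℂ[X]) =
        ∏ ω ∈ nthRootsFinset k (1 : ℂ), (C x - C ω * X) := by
      refine Polynomial.funext fun t => ?_
      rw [Polynomial.eval_prod]
      simp only [eval_sub, eval_C, eval_pow, eval_X, eval_mul]
      exact hζ.pow_sub_pow_eq_prod_sub_mul x t hk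
    let φ : ℂ[X] →* ℂ := (Matrix.detMonoidHom (n := Fin r) (R := ℂ)).comp
      ((aeval A : ℂ[X] →ₐ[ℂ] Matrix (Fin r) (Fin r) ℂ) : ℂ[X] →* Matrix (Fin r) (Fin r) ℂ)
    have h1 : φ (C (x ^ k) - X ^ k) = ((A ^ k).charpoly).eval (x ^ k) := by
      rw [Matrix.eval_charpoly]
      change (aeval A (C (x ^ k) - X ^ k : ℂ[X])).det = _
      rw [map_sub, aeval_C, map_pow (aeval A) X k, aeval_X]
      rfl
    have h2 : ∀ ω : ℂ, φ (C x - C ω * X) = (A.charpoly.roots.map fun a => x - ω * a).prod := by
      intro ω
      rw [← det_sub_smul]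
      change (aeval A (C x - C ω * X : ℂ[X])).det = _
      rw [map_sub, aeval_C, map_mul, aeval_C, aeval_X, Algebra.algebraMap_eq_smul_one,
        Algebra.algebraMap_eq_smul_one, smul_mul_assoc, one_mul]
    rw [← h1, hid, map_prod, Finset.prod_congr rfl fun ω _ => h2 ω, Polynomial.eval_multiset_prod,
      Multiset.map_map]
    have h3 : ∀ (s : Multiset ℂ), ∏ ω ∈ nthRootsFinset k (1 : ℂ),
        (s.map fun a => x - ω * a).prod = (s.map fun a => x ^ k - a ^ k).prod := by
      intro s
      induction s using Multiset.induction with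
      | empty => simp
      | cons a s ih =>
        simp only [Multiset.map_cons, Multiset.prod_cons]
        rw [Finset.prod_mul_distrib, ih, hζ.pow_sub_pow_eq_prod_sub_mul x a hk]
    rw [h3]
    congr 1
    refine Multiset.map_congr rfl fun a _ => ?_
    simp
  have h4 : (A.charpoly.roots.map fun a => (X - C (a ^ k) : ℂ[X])) =
      (A.charpoly.roots.map fun a => a ^ k).map fun b => X - C b := by
    rw [Multiset.map_map]
    rfl
  rw [hpoly, h4, Polynomial.roots_multiset_prod_X_sub_C]

lemma eq_zero_of_pow {a : ℂ} {n : ℕ} (h : a ^ n = 0) : a = 0 := by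
  by_contra ha
  exact pow_ne_zero n ha h

lemma norm_root {A : Matrix (Fin r) (Fin r) ℂ} {m : ℕ} (hm : 0 < m) (hA : A ^ m = 1) {a : ℂ}
    (ha : a ∈ A.charpoly.roots) : ‖a‖ = 1 := by
  have h1 : a ^ m ∈ (A ^ m).charpoly.roots := by
    rw [roots_pow A m hm]
    exact Multiset.mem_map_of_mem _ ha
  rw [hA, Matrix.charpoly_one, Polynomial.mem_roots', Polynomial.IsRoot, eval_pow, eval_sub, eval_X,
    eval_one] at h1
  have h2 : a ^ m = 1 := sub_eq_zero.1 (eq_zero_of_pow h1.2)
  have h3 : ‖a‖ ^ m = 1 := by rw [← norm_pow, h2, norm_one]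
  exact (pow_eq_one_iff_of_nonneg (norm_nonneg a) hm.ne').1 h3

lemma hasSum_log (a Y : ℂ) (ha : ‖a‖ = 1) (hY : ‖Y‖ < 1) :
    HasSum (fun n : ℕ => a ^ (n + 1) * Y ^ (n + 1) / ((n : ℂ) + 1)) (-Complex.log (1 - Y * a)) := by
  have h0 : ‖Y * a‖ < 1 := by rw [norm_mul, ha, mul_one]; exact hY
  have h1 := Complex.hasSum_taylorSeries_neg_log h0
  have h2 := (hasSum_nat_add_iff' (f := fun n : ℕ => (Y * a) ^ n / (n : ℂ)) 1).2 h1
  simp only [Finset.range_one, Finset.sum_singleton, pow_zero, Nat.cast_zero, div_zero,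
    sub_zero] at h2
  have e : (fun n : ℕ => a ^ (n + 1) * Y ^ (n + 1) / ((n : ℂ) + 1)) =
      fun n : ℕ => (Y * a) ^ (n + 1) / ((n + 1 : ℕ) : ℂ) := by
    funext n
    push_cast
    rw [mul_pow]
    ring
  rw [e]
  exact h2

end EULT19

open EULT19

theorem st_EULT : ST_EULT := by
  intro G _ _ r τ g Y hY
  set A : Matrix (Fin r) (Fin r) ℂ := ((τ g : Matrix.GeneralLinearGroup (Fin r) ℂ) :
    Matrix (Fin r) (Fin r) ℂ) with hAdef
  have hm : 0 < orderOf g := orderOf_pos g
  have hpow : ∀ n : ℕ, ((τ (g ^ n) : Matrix.GeneralLinearGroup (Fin r) ℂ) :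
      Matrix (Fin r) (Fin r) ℂ) = A ^ n := by
    intro n
    rw [map_pow, Units.val_pow_eq_pow_val]
  have hA : A ^ orderOf g = 1 := by
    rw [← hpow, pow_orderOf_eq_one, map_one, Units.val_one]
  have hroot : ∀ a ∈ A.charpoly.roots, ‖a‖ = 1 := fun a ha => norm_root hm hA ha
  have htr : ∀ n : ℕ, Matrix.trace (A ^ (n + 1)) =
      (A.charpoly.roots.map fun a => a ^ (n + 1)).sum := by
    intro n
    rw [Matrix.trace_eq_sum_roots_charpoly, roots_pow A (n + 1) (Nat.succ_pos n)]
  have hsum : ∀ s : Multiset ℂ, (∀ a ∈ s, ‖a‖ = 1) →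
      HasSum (fun n : ℕ => (s.map fun a => a ^ (n + 1)).sum * Y ^ (n + 1) / ((n : ℂ) + 1))
        (s.map fun a => -Complex.log (1 - Y * a)).sum := by
    intro s
    induction s using Multiset.induction with
    | empty => intro _; simp [hasSum_zero]
    | cons a s ih =>
      intro hs
      have h1 := hasSum_log a Y (hs a (Multiset.mem_cons_self a s)) hY
      have h2 := ih fun b hb => hs b (Multiset.mem_cons_of_mem hb)
      have h3 := h1.add h2
      simp only [Multiset.map_cons, Multiset.sum_cons]
      have e : (fun n : ℕ => (a ^ (n + 1) + (s.map fun a => a ^ (n + 1)).sum) * Y ^ (n + 1) /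
          ((n : ℂ) + 1)) = fun n : ℕ => a ^ (n + 1) * Y ^ (n + 1) / ((n : ℂ) + 1) +
            (s.map fun a => a ^ (n + 1)).sum * Y ^ (n + 1) / ((n : ℂ) + 1) := by
        funext n
        ring
      rw [e]
      exact h3
  refine ⟨(A.charpoly.roots.map fun a => -Complex.log (1 - Y * a)).sum, ?_, ?_⟩
  · have h := hsum A.charpoly.roots hroot
    simp only [hpow, htr]
    exact h
  · have h1 : (1 - Y • A).det = (A.charpoly.roots.map fun a => 1 - Y * a).prod := by
      rw [← det_sub_smul, one_smul]
    rw [h1]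
    have h2 : ∀ s : Multiset ℂ, (∀ a ∈ s, ‖a‖ = 1) →
        ((s.map fun a => 1 - Y * a).prod)⁻¹ =
          Complex.exp (s.map fun a => -Complex.log (1 - Y * a)).sum := by
      intro s
      induction s using Multiset.induction with
      | empty => intro _; simp
      | cons a s ih =>
        intro hs
        have h3 : 1 - Y * a ≠ 0 := by
          intro h
          have h4 : Y * a = 1 := (sub_eq_zero.1 h).symm
          have h5 : ‖Y * a‖ = 1 := by rw [h4, norm_one]
          rw [norm_mul, hs a (Multiset.mem_cons_self a s), mul_one] at h5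
          linarith
        rw [Multiset.map_cons, Multiset.prod_cons, Multiset.map_cons, Multiset.sum_cons,
          Complex.exp_add, Complex.exp_neg, Complex.exp_log h3, mul_inv,
          ih fun b hb => hs b (Multiset.mem_cons_of_mem hb)]
    exact h2 _ hroot

end BKA
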