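import Pool.Agent.Helper64.BKA.CoreV
import Pool.Agent.Helper76.BKA.SUM

/-! # GRP: the `L`-function of an induced motive -/

set_option autoImplicit false

open NumberField
open scoped Classical

namespace BKA
namespace GRPaux

section

variable {F K : Type} [Field F] [NumberField F] [Field K] [NumberField K] [Algebra F K]

/-- the term of the series -/
noncomputable def T {K : Type} [Field K] [NumberField K] (κ : Pl K → ℕ → ℂ) (s : ℂ)
    (x : Pl K × ℕ) : ℂ :=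
  κ x.1 x.2 * (q x.1 : ℂ) ^ (-((x.2 + 1 : ℂ) * s)) / (x.2 + 1)

/-- the place below -/
noncomputable def pr (F : Type) {K : Type} [Field F] [NumberField F] [Field K] [NumberField K]
    [Algebra F K] (w : Pl K) : Pl F :=
  IsDedekindDomain.HeightOneSpectrum.under (𝓞 F) w

theorem comap_pr (w : Pl K) :
    w.asIdeal.comap (algebraMap (𝓞 F) (𝓞 K)) = (pr F w).asIdeal := rfl

theorem lies (v : Pl F) (w : Pl K)
    (h : w.asIdeal.comap (algebraMap (𝓞 F) (𝓞 K)) = v.asIdeal) : w.asIdeal.LiesOver v.asIdeal :=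
  ⟨h.symm⟩

theorem pr_eq (v : Pl F) (w : Pl K)
    (h : w.asIdeal.comap (algebraMap (𝓞 F) (𝓞 K)) = v.asIdeal) : pr F w = v :=
  IsDedekindDomain.HeightOneSpectrum.ext h

theorem deg_pos (v : Pl F) (w : Pl K)
    (h : w.asIdeal.comap (algebraMap (𝓞 F) (𝓞 K)) = v.asIdeal) :
    0 < v.asIdeal.inertiaDeg' w.asIdeal := by
  haveI := lies v w h
  haveI := v.isPrime
  haveI := w.isPrime
  exact Ideal.inertiaDeg'_pos' v.asIdeal w.asIdeal

theorem q_eq (v : Pl F) (w : Pl K)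
    (h : w.asIdeal.comap (algebraMap (𝓞 F) (𝓞 K)) = v.asIdeal) :
    q w = q v ^ v.asIdeal.inertiaDeg' w.asIdeal := by
  haveI := lies v w h
  exact Ideal.absNorm_eq_pow_inertiaDeg'_of_liesOver w.asIdeal v.asIdeal v.isPrime v.ne_bot

theorem finite_over (v : Pl F) :
    Finite {w : Pl K // w.asIdeal.comap (algebraMap (𝓞 F) (𝓞 K)) = v.asIdeal} := by
  haveI := v.isPrime.isMaximal v.ne_bot
  have hf := IsDedekindDomain.primesOver_finite v.asIdeal (𝓞 K)
  haveI : Finite (v.asIdeal.primesOver (𝓞 K)) := hf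
  refine Finite.of_injective (β := v.asIdeal.primesOver (𝓞 K))
    (fun w => ⟨w.1.asIdeal, w.1.isPrime, ⟨w.2.symm⟩⟩) ?_
  intro a b hab
  apply Subtype.ext
  apply IsDedekindDomain.HeightOneSpectrum.ext
  exact congrArg Subtype.val hab

theorem norm_T {K : Type} [Field K] [NumberField K] (κ : Pl K → ℕ → ℂ) (C A : ℝ)
    (hκ : ∀ v k, ‖κ v k‖ ≤ C * (q v : ℝ) ^ (A * ((k : ℝ) + 1))) (s : ℂ)
    (hs : |A| + 2 < s.re) (x : Pl K × ℕ) :
    ‖T κ s x‖ ≤ |C| * (q x.1 : ℝ) ^ (-(2 : ℝ)) * (1 / 4) ^ x.2 := by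
  obtain ⟨v, k⟩ := x
  have hq2 : (2 : ℝ) ≤ (q v : ℝ) := by exact_mod_cast (st_SUM K).1 v
  have hq0 : (0 : ℝ) < (q v : ℝ) := by linarith
  have hq1 : (1 : ℝ) ≤ (q v : ℝ) := by linarith
  have hk1 : (0 : ℝ) < (k : ℝ) + 1 := by positivity
  have hn1 : ‖((k : ℂ) + 1)‖ = (k : ℝ) + 1 := by
    have : ((k : ℂ) + 1) = (((k : ℝ) + 1 : ℝ) : ℂ) := by push_cast; ring
    rw [this, Complex.norm_real, Real.norm_of_nonneg hk1.le]
  have hn2 : ‖(q v : ℂ) ^ (-(((k : ℂ) + 1) * s))‖ = (q v : ℝ) ^ (-(((k : ℝ) + 1) * s.re)) := by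
    rw [show ((q v : ℕ) : ℂ) = (((q v : ℕ) : ℝ) : ℂ) by push_cast; rfl,
      Complex.norm_cpow_eq_rpow_re_of_pos hq0]
    congr 1
    have : ((k : ℂ) + 1) = (((k : ℝ) + 1 : ℝ) : ℂ) := by push_cast; ring
    rw [this]
    simp only [Complex.neg_re, Complex.re_ofReal_mul]
  have hA := le_abs_self A
  calc ‖T κ s (v, k)‖ = ‖κ v k‖ * (q v : ℝ) ^ (-(((k : ℝ) + 1) * s.re)) / ((k : ℝ) + 1) := by
        simp only [T]
        rw [norm_div, norm_mul, hn1, hn2]
    _ ≤ ‖κ v k‖ * (q v : ℝ) ^ (-(((k : ℝ) + 1) * s.re)) := by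
        apply div_le_self (by positivity)
        have : (0 : ℝ) ≤ k := Nat.cast_nonneg k
        linarith
    _ ≤ (|C| * (q v : ℝ) ^ (A * ((k : ℝ) + 1))) * (q v : ℝ) ^ (-(((k : ℝ) + 1) * s.re)) := by
        apply mul_le_mul_of_nonneg_right _ (by positivity)
        refine (hκ v k).trans ?_
        exact mul_le_mul_of_nonneg_right (le_abs_self C) (by positivity)
    _ = |C| * (q v : ℝ) ^ (((k : ℝ) + 1) * (A - s.re)) := by
        rw [mul_assoc, ← Real.rpow_add hq0]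
        congr 2
        ring
    _ ≤ |C| * (q v : ℝ) ^ (((k : ℝ) + 1) * (-2)) := by
        apply mul_le_mul_of_nonneg_left _ (abs_nonneg C)
        apply Real.rpow_le_rpow_of_exponent_le hq1
        apply mul_le_mul_of_nonneg_left _ hk1.le
        linarith
    _ = |C| * (q v : ℝ) ^ (-(2 : ℝ)) * ((q v : ℝ) ^ (-(2 : ℝ))) ^ k := by
        rw [mul_assoc, ← Real.rpow_natCast, ← Real.rpow_mul hq0.le, ← Real.rpow_add hq0]
        congr 2
        ring
    _ ≤ |C| * (q v : ℝ) ^ (-(2 : ℝ)) * (1 / 4) ^ k := by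
        apply mul_le_mul_of_nonneg_left _ (by positivity)
        apply pow_le_pow_left₀ (by positivity)
        rw [Real.rpow_neg hq0.le]
        rw [show ((2 : ℝ)) = ((2 : ℕ) : ℝ) by norm_num, Real.rpow_natCast]
        rw [one_div]
        apply inv_anti₀ (by norm_num)
        nlinarith

theorem summable_T {K : Type} [Field K] [NumberField K] (κ : Pl K → ℕ → ℂ) (C A : ℝ)
    (hκ : ∀ v k, ‖κ v k‖ ≤ C * (q v : ℝ) ^ (A * ((k : ℝ) + 1))) (s : ℂ)
    (hs : |A| + 2 < s.re) : Summable (T κ s) := by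
  refine Summable.of_norm_bounded
    (g := fun x : Pl K × ℕ => (|C| * (q x.1 : ℝ) ^ (-(2 : ℝ))) * (1 / 4) ^ x.2) ?_
    (norm_T κ C A hκ s hs)
  have h1 : Summable fun v : Pl K => |C| * (q v : ℝ) ^ (-(2 : ℝ)) :=
    ((st_SUM K).2 2 (by norm_num)).mul_left _
  have h2 : Summable fun k : ℕ => ((1 : ℝ) / 4) ^ k :=
    summable_geometric_of_lt_one (by norm_num) (by norm_num)
  exact h1.mul_of_nonneg h2 (fun v => by positivity) (fun k => by positivity)

/-- the map of the indices -/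
noncomputable def Phi (F : Type) {K : Type} [Field F] [NumberField F] [Field K] [NumberField K]
    [Algebra F K] (x : Pl K × ℕ) : Pl F × ℕ :=
  (pr F x.1, (pr F x.1).asIdeal.inertiaDeg' x.1.asIdeal * (x.2 + 1) - 1)

theorem Phi_eq_iff (x : Pl K × ℕ) (v : Pl F) (k : ℕ) :
    Phi F x = (v, k) ↔ x.1.asIdeal.comap (algebraMap (𝓞 F) (𝓞 K)) = v.asIdeal ∧
      v.asIdeal.inertiaDeg' x.1.asIdeal * (x.2 + 1) = k + 1 := by
  constructor
  · intro h
    have h1 : pr F x.1 = v := congrArg Prod.fst h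
    have h2 : (pr F x.1).asIdeal.inertiaDeg' x.1.asIdeal * (x.2 + 1) - 1 = k :=
      congrArg Prod.snd h
    have h3 : x.1.asIdeal.comap (algebraMap (𝓞 F) (𝓞 K)) = v.asIdeal := by
      rw [← h1]; rfl
    refine ⟨h3, ?_⟩
    rw [h1] at h2
    have h5 : 0 < v.asIdeal.inertiaDeg' x.1.asIdeal * (x.2 + 1) :=
      Nat.mul_pos (deg_pos v x.1 h3) (Nat.succ_pos x.2)
    omega
  · rintro ⟨h3, h4⟩
    have h1 := pr_eq v x.1 h3
    refine Prod.ext h1 ?_
    show (pr F x.1).asIdeal.inertiaDeg' x.1.asIdeal * (x.2 + 1) - 1 = k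
    rw [h1, h4]
    rfl

/-- the summand on the fibre -/
noncomputable def G (κ : Pl K → ℕ → ℂ) (s : ℂ) (v : Pl F) (k : ℕ)
    (w : {w : Pl K // w.asIdeal.comap (algebraMap (𝓞 F) (𝓞 K)) = v.asIdeal}) : ℂ :=
  if v.asIdeal.inertiaDeg' (w : Pl K).asIdeal ∣ k + 1 then
    T κ s ((w : Pl K), (k + 1) / v.asIdeal.inertiaDeg' (w : Pl K).asIdeal - 1) else 0

theorem term_eq (κ : Pl K → ℕ → ℂ) (s : ℂ) (v : Pl F) (k : ℕ)
    (w : {w : Pl K // w.asIdeal.comap (algebraMap (𝓞 F) (𝓞 K)) = v.asIdeal}) :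
    G κ s v k w = (if v.asIdeal.inertiaDeg' (w : Pl K).asIdeal ∣ k + 1 then
      (v.asIdeal.inertiaDeg' (w : Pl K).asIdeal : ℂ) *
        κ w ((k + 1) / v.asIdeal.inertiaDeg' (w : Pl K).asIdeal - 1)
    else 0) * (q v : ℂ) ^ (-((k + 1 : ℂ) * s)) / (k + 1) := by
  have hf := deg_pos v w.1 w.2
  have hq := q_eq v w.1 w.2
  unfold G
  generalize hfe : v.asIdeal.inertiaDeg' (w : Pl K).asIdeal = f at *
  split_ifs with hd
  · obtain ⟨m, hm⟩ := hd
    have hm0 : 0 < m := by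
      rcases Nat.eq_zero_or_pos m with h | h
      · rw [h] at hm; omega
      · exact h
    have hdiv : (k + 1) / f = m := by rw [hm]; exact Nat.mul_div_cancel_left m hf
    rw [hdiv]
    simp only [T]
    obtain ⟨j, rfl⟩ : ∃ j, m = j + 1 := ⟨m - 1, by omega⟩
    have hj : j + 1 - 1 = j := rfl
    rw [hj]
    have hk : ((k : ℂ) + 1) = (f : ℂ) * ((j : ℂ) + 1) := by
      have := congrArg (fun n : ℕ => (n : ℂ)) hm
      push_cast at this
      exact this
    have hf0 : (f : ℂ) ≠ 0 := by exact_mod_cast hf.ne'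
    have hj0 : ((j : ℂ) + 1) ≠ 0 := by exact_mod_cast Nat.succ_ne_zero j
    have hcp : ((q w.1 : ℕ) : ℂ) ^ (-(((j : ℂ) + 1) * s)) =
        ((q v : ℕ) : ℂ) ^ (-(((f : ℂ) * ((j : ℂ) + 1)) * s)) := by
      rw [hq]
      push_cast
      rw [← Complex.natCast_cpow_natCast_mul]
      congr 1
      ring
    rw [hcp, hk]
    field_simp
  · simp

theorem fibre (κ : Pl K → ℕ → ℂ) (s : ℂ) (v : Pl F) (k : ℕ) :
    ∑' b : (Phi F (K := K)) ⁻¹' {(v, k)}, T κ s b = T (indT (F := F) κ) s (v, k) := by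
  haveI := finite_over (K := K) v
  let i : (Phi F (K := K)) ⁻¹' {(v, k)} →
      {w : Pl K // w.asIdeal.comap (algebraMap (𝓞 F) (𝓞 K)) = v.asIdeal} :=
    fun b => ⟨b.1.1, ((Phi_eq_iff b.1 v k).1 b.2).1⟩
  have hi : Function.Injective i := by
    rintro ⟨⟨w, a⟩, h⟩ ⟨⟨w', a'⟩, h'⟩ hab
    have hw : w = w' := congrArg (fun z => z.1) hab
    subst hw
    obtain ⟨h1, h2⟩ := (Phi_eq_iff (w, a) v k).1 h
    obtain ⟨h1', h2'⟩ := (Phi_eq_iff (w, a') v k).1 h'
    have hp := deg_pos v w h1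
    have : a = a' := by
      have h5 : v.asIdeal.inertiaDeg' w.asIdeal * (a + 1) =
          v.asIdeal.inertiaDeg' w.asIdeal * (a' + 1) := h2.trans h2'.symm
      have := Nat.eq_of_mul_eq_mul_left hp h5
      omega
    subst this
    rfl
  have hcomp : ∀ b : (Phi F (K := K)) ⁻¹' {(v, k)}, T κ s b = G κ s v k (i b) := by
    rintro ⟨⟨w, a⟩, h⟩
    obtain ⟨h1, h2⟩ := (Phi_eq_iff (w, a) v k).1 h
    have hp := deg_pos v w h1
    simp only at h2
    show T κ s (w, a) = G κ s v k ⟨w, h1⟩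
    unfold G
    rw [if_pos ⟨a + 1, h2.symm⟩]
    congr 2
    show a = (k + 1) / v.asIdeal.inertiaDeg' w.asIdeal - 1
    rw [← h2, Nat.mul_div_cancel_left _ hp]
    rfl
  have hsupp : Function.support (G κ s v k) ⊆ Set.range i := by
    intro w hw
    have hd : v.asIdeal.inertiaDeg' (w : Pl K).asIdeal ∣ k + 1 := by
      by_contra hcon
      apply hw
      unfold G
      rw [if_neg hcon]
    obtain ⟨m, hm⟩ := hd
    have hm0 : 0 < m := by
      rcases Nat.eq_zero_or_pos m with h | h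
      · rw [h] at hm; omega
      · exact h
    refine ⟨⟨(w.1, m - 1), ?_⟩, ?_⟩
    · show Phi F (w.1, m - 1) = (v, k)
      rw [Phi_eq_iff]
      refine ⟨w.2, ?_⟩
      show v.asIdeal.inertiaDeg' (w : Pl K).asIdeal * (m - 1 + 1) = k + 1
      rw [Nat.sub_add_cancel hm0, hm]
    · rfl
  calc ∑' b : (Phi F (K := K)) ⁻¹' {(v, k)}, T κ s b = ∑' b, G κ s v k (i b) :=
        tsum_congr hcomp
    _ = ∑' w, G κ s v k w := hi.tsum_eq hsupp
    _ = ∑ᶠ w, G κ s v k w := tsum_eq_finsum (Set.toFinite _)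
    _ = T (indT (F := F) κ) s (v, k) := by
        haveI := Fintype.ofFinite
          {w : Pl K // w.asIdeal.comap (algebraMap (𝓞 F) (𝓞 K)) = v.asIdeal}
        simp only [T, indT]
        rw [finsum_eq_sum_of_fintype, finsum_eq_sum_of_fintype, Finset.sum_mul, Finset.sum_div]
        exact Finset.sum_congr rfl fun w _ => term_eq κ s v k w

end

end GRPaux

open GRPaux in
theorem st_GRP : ST_GRP := by
  intro F K _ _ _ _ _ κ C A hκ s hs
  have h1 : Summable (T κ s) := summable_T κ C A hκ s hs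
  have h2 : HasSum (fun c : Pl F × ℕ => ∑' b : (Phi F (K := K)) ⁻¹' {c}, T κ s b)
      (∑' x, T κ s x) := h1.hasSum.tsum_fiberwise (Phi F)
  have h3 : HasSum (T (indT (F := F) κ) s) (∑' x, T κ s x) := by
    have h4 : T (indT (F := F) κ) s =
        fun c : Pl F × ℕ => ∑' b : (Phi F (K := K)) ⁻¹' {c}, T κ s b := by
      funext c
      exact (fibre κ s c.1 c.2).symm
    rw [h4]
    exact h2
  exact ⟨h1, h3.summable, h3.tsum_eq.symm⟩

end BKA
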