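import Pool.Agent.Helper19.BKA.REL2
import Pool.Agent.Helper64.BKA.Stmts3

/-!
# HP: relations in the half plane of convergence
-/

set_option autoImplicit false

open scoped Classical Topology
open Filter

namespace BKA

open REL219

theorem st_HP : ST_HP := by
  intro G _ _ I q g d α w r θ ε n hE hq hS hα hrel s hs
  have hB0 : (0 : ℝ) ≤ ∑ i, ∑ x, ‖θ i x‖ :=
    Finset.sum_nonneg fun i _ => Finset.sum_nonneg fun x _ => norm_nonneg _
  have hB : ∀ i x, ‖θ i x‖ ≤ ∑ i, ∑ x, ‖θ i x‖ := by
    intro i x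
    refine (Finset.single_le_sum (f := fun x => ‖θ i x‖) (fun x _ => norm_nonneg _)
      (Finset.mem_univ x)).trans ?_
    exact Finset.single_le_sum (f := fun i => ∑ x, ‖θ i x‖)
      (fun i _ => Finset.sum_nonneg fun x _ => norm_nonneg _) (Finset.mem_univ i)
  exact half_plane G I q g d α w r θ ε n _ hB0 hB hE hq hS hα hrel s hs

end BKA
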