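import Pool.Agent.Helper64.BKA.Stmts2

/-!
# REL2: relations between class functions and `L`-functions
-/

set_option autoImplicit false

open scoped Classical Topology
open Filter

namespace BKA

namespace REL219

/-- the bound for one logarithm -/
lemma bound_log (G : Type) [Group G] (B : ℝ) (hB0 : 0 ≤ B) (θ : G → ℂ)
    (hB : ∀ x, ‖θ x‖ ≤ B) (g : G) (Y : ℂ) (hY : ‖Y‖ ≤ 1 / 2) (l : ℂ)
    (hl : HasSum (fun n : ℕ => θ (g ^ (n + 1)) * Y ^ (n + 1) / ((n : ℂ) + 1)) l) :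
    ‖l‖ ≤ 2 * B * ‖Y‖ := by
  have hY0 : 0 ≤ ‖Y‖ := norm_nonneg _
  have hY1 : ‖Y‖ < 1 := by linarith
  have hg : HasSum (fun n : ℕ => B * (‖Y‖ * ‖Y‖ ^ n))
      (B * (‖Y‖ * (1 - ‖Y‖)⁻¹)) :=
    ((hasSum_geometric_of_lt_one hY0 hY1).mul_left _).mul_left _
  have hterm : ∀ n : ℕ, ‖θ (g ^ (n + 1)) * Y ^ (n + 1) / ((n : ℂ) + 1)‖ ≤
      B * (‖Y‖ * ‖Y‖ ^ n) := by
    intro n
    have h1 : ‖((n : ℂ) + 1)‖ = (n : ℝ) + 1 := by
      have : ((n : ℂ) + 1) = ((n + 1 : ℕ) : ℂ) := by push_cast; ring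
      rw [this, Complex.norm_natCast]; push_cast; ring
    rw [norm_div, norm_mul, norm_pow, h1]
    have h2 : (1 : ℝ) ≤ (n : ℝ) + 1 := by linarith [(Nat.cast_nonneg n : (0 : ℝ) ≤ (n : ℝ))]
    have h3 : ‖θ (g ^ (n + 1))‖ ≤ B := hB _
    have h4 : 0 ≤ ‖θ (g ^ (n + 1))‖ * ‖Y‖ ^ (n + 1) := by positivity
    calc ‖θ (g ^ (n + 1))‖ * ‖Y‖ ^ (n + 1) / ((n : ℝ) + 1)
        ≤ ‖θ (g ^ (n + 1))‖ * ‖Y‖ ^ (n + 1) := div_le_self h4 h2
      _ ≤ B * ‖Y‖ ^ (n + 1) := by gcongr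
      _ = B * (‖Y‖ * ‖Y‖ ^ n) := by ring
  have h5 := tsum_of_norm_bounded hg hterm
  rw [hl.tsum_eq] at h5
  refine h5.trans ?_
  have h6 : (1 - ‖Y‖)⁻¹ ≤ 2 := by
    rw [inv_le_comm₀ (by linarith) (by norm_num)]
    norm_num; linarith
  calc B * (‖Y‖ * (1 - ‖Y‖)⁻¹) ≤ B * (‖Y‖ * 2) := by gcongr
    _ = 2 * B * ‖Y‖ := by ring

/-- in the half plane: the products do not vanish and the relation holds -/
lemma half_plane
    (G : Type) [Group G] [Fintype G] (I : Type) (q : I → ℕ) (g : I → G) (d : ℕ)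
    (α : I → Fin d → ℂ) (w : ℝ) (r : ℕ) (θ : Fin r → G → ℂ) (ε : Fin r → G → ℂ → ℂ)
    (n : Fin r → ℤ) (B : ℝ) (hB0 : 0 ≤ B) (hB : ∀ i x, ‖θ i x‖ ≤ B)
    (hE : ∀ i x Y, ‖Y‖ < 1 → ∃ l : ℂ,
      HasSum (fun m : ℕ => θ i (x ^ (m + 1)) * Y ^ (m + 1) / ((m : ℂ) + 1)) l ∧
        (ε i x Y)⁻¹ = Complex.exp l)
    (hq : ∀ v, 2 ≤ q v)
    (hS : ∀ σ : ℝ, 1 < σ → Summable fun v => (q v : ℝ) ^ (-σ))
    (hα : ∀ v j, ‖α v j‖ ≤ (q v : ℝ) ^ (w / 2))
    (hrel : ∀ x : G, ∑ i, (n i : ℂ) * θ i x = 0)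
    (s : ℂ) (hs : w / 2 + 1 < s.re) :
    (∀ i, (∏' v, ∏ j : Fin d, (ε i (g v) (α v j * (q v : ℂ) ^ (-s)))⁻¹) ≠ 0) ∧
      ∏ i, (∏' v, ∏ j : Fin d, (ε i (g v) (α v j * (q v : ℂ) ^ (-s)))⁻¹) ^ (n i) = 1 := by
  set τ : ℝ := s.re - w / 2 with hτ
  have hτ1 : 1 < τ := by rw [hτ]; linarith
  set Y : I → Fin d → ℂ := fun v j => α v j * (q v : ℂ) ^ (-s) with hYdef
  have hq0 : ∀ v, (0 : ℝ) < q v := fun v => by
    have := hq v
    have : (2 : ℝ) ≤ q v := by exact_mod_cast this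
    linarith
  have hYb : ∀ v j, ‖Y v j‖ ≤ (q v : ℝ) ^ (-τ) := by
    intro v j
    have h1 : ‖(q v : ℂ) ^ (-s)‖ = (q v : ℝ) ^ (-s.re) := by
      rw [Complex.norm_natCast_cpow_of_pos (by have := hq v; omega)]
      simp
    have h2 : (q v : ℝ) ^ (-τ) = (q v : ℝ) ^ (w / 2) * (q v : ℝ) ^ (-s.re) := by
      rw [← Real.rpow_add (hq0 v)]
      congr 1
      rw [hτ]; ring
    rw [hYdef]
    simp only
    rw [norm_mul, h1, h2]
    gcongr
    exact hα v j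
  have hYh : ∀ v j, ‖Y v j‖ ≤ 1 / 2 := by
    intro v j
    refine (hYb v j).trans ?_
    have h2 : (2 : ℝ) ≤ q v := by exact_mod_cast hq v
    calc (q v : ℝ) ^ (-τ) ≤ (q v : ℝ) ^ (-1 : ℝ) :=
          Real.rpow_le_rpow_of_exponent_le (by linarith) (by linarith)
      _ = (q v : ℝ)⁻¹ := Real.rpow_neg_one _
      _ ≤ 1 / 2 := by
          rw [one_div]
          exact inv_anti₀ (by norm_num) h2
  have hY1 : ∀ v j, ‖Y v j‖ < 1 := fun v j => by linarith [hYh v j]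
  choose l hl1 hl2 using fun (i : Fin r) (v : I) (j : Fin d) =>
    hE i (g v) (Y v j) (hY1 v j)
  have hlb : ∀ i v j, ‖l i v j‖ ≤ 2 * B * (q v : ℝ) ^ (-τ) := by
    intro i v j
    refine (bound_log G B hB0 (θ i) (hB i) (g v) (Y v j) (hYh v j) (l i v j) (hl1 i v j)).trans ?_
    gcongr
    exact hYb v j
  have hsumj : ∀ i j, Summable fun v => l i v j := by
    intro i j
    exact Summable.of_norm_bounded ((hS τ hτ1).mul_left _) (fun v => hlb i v j)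
  have hsum : ∀ i, Summable fun v => ∑ j, l i v j := fun i =>
    summable_sum fun j _ => hsumj i j
  have hLL : ∀ i, (∏' v, ∏ j : Fin d, (ε i (g v) (α v j * (q v : ℂ) ^ (-s)))⁻¹) = Complex.exp (∑' v, ∑ j, l i v j) := by
    intro i
    have h1 : HasProd (fun v => Complex.exp (∑ j, l i v j)) (Complex.exp (∑' v, ∑ j, l i v j)) :=
      (hsum i).hasSum.cexp
    rw [← h1.tprod_eq]
    refine tprod_congr fun v => ?_
    rw [Complex.exp_sum]
    exact Finset.prod_congr rfl fun j _ => hl2 i v j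
  refine ⟨fun i => by rw [hLL]; exact Complex.exp_ne_zero _, ?_⟩
  have h2 : ∀ i, ((∏' v, ∏ j : Fin d, (ε i (g v) (α v j * (q v : ℂ) ^ (-s)))⁻¹)) ^ (n i) =
      Complex.exp ((n i : ℂ) * ∑' v, ∑ j, l i v j) := by
    intro i
    rw [hLL, ← Complex.exp_int_mul]
  rw [Finset.prod_congr rfl fun i _ => h2 i, ← Complex.exp_sum]
  have h3 : ∀ v j, ∑ i, (n i : ℂ) * l i v j = 0 := by
    intro v j
    have h4 : HasSum (fun m : ℕ => ∑ i, (n i : ℂ) *
        (θ i (g v ^ (m + 1)) * Y v j ^ (m + 1) / ((m : ℂ) + 1)))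
        (∑ i, (n i : ℂ) * l i v j) :=
      hasSum_sum fun i _ => (hl1 i v j).mul_left _
    have h5 : (fun m : ℕ => ∑ i, (n i : ℂ) *
        (θ i (g v ^ (m + 1)) * Y v j ^ (m + 1) / ((m : ℂ) + 1))) = fun _ => 0 := by
      funext m
      have : ∀ i, (n i : ℂ) * (θ i (g v ^ (m + 1)) * Y v j ^ (m + 1) / ((m : ℂ) + 1))
          = ((n i : ℂ) * θ i (g v ^ (m + 1))) * (Y v j ^ (m + 1) / ((m : ℂ) + 1)) := by
        intro i; ring
      rw [Finset.sum_congr rfl fun i _ => this i, ← Finset.sum_mul, hrel, zero_mul]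
    rw [h5] at h4
    exact h4.unique hasSum_zero
  have h6 : ∑ i, (n i : ℂ) * ∑' v, ∑ j, l i v j = 0 := by
    have h7 : HasSum (fun v => ∑ i, (n i : ℂ) * ∑ j, l i v j)
        (∑ i, (n i : ℂ) * ∑' v, ∑ j, l i v j) :=
      hasSum_sum fun i _ => (hsum i).hasSum.mul_left _
    have h8 : (fun v => ∑ i, (n i : ℂ) * ∑ j, l i v j) = fun _ => 0 := by
      funext v
      simp_rw [Finset.mul_sum]
      rw [Finset.sum_comm]
      exact Finset.sum_eq_zero fun j _ => h3 v j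
    rw [h8] at h7
    exact h7.unique hasSum_zero
  rw [h6, Complex.exp_zero]

end REL219

open REL219

theorem st_REL2 : ST_REL2 := by
  intro G _ _ I q g d α w r θ ε n Λ hE hq hS hα hmer hΛ hrel
  have hB0 : (0 : ℝ) ≤ ∑ i, ∑ x, ‖θ i x‖ :=
    Finset.sum_nonneg fun i _ => Finset.sum_nonneg fun x _ => norm_nonneg _
  have hB : ∀ i x, ‖θ i x‖ ≤ ∑ i, ∑ x, ‖θ i x‖ := by
    intro i x
    refine (Finset.single_le_sum (f := fun x => ‖θ i x‖) (fun x _ => norm_nonneg _)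
      (Finset.mem_univ x)).trans ?_
    exact Finset.single_le_sum (f := fun i => ∑ x, ‖θ i x‖)
      (fun i _ => Finset.sum_nonneg fun x _ => norm_nonneg _) (Finset.mem_univ i)
  have hhalf := fun (s : ℂ) (hs : w / 2 + 1 < s.re) =>
    half_plane G I q g d α w r θ ε n _ hB0 hB hE hq hS hα hrel s hs
  set s₀ : ℂ := ((w / 2 + 2 : ℝ) : ℂ) with hs₀
  have hopen : IsOpen {s : ℂ | w / 2 + 1 < s.re} :=
    isOpen_lt continuous_const Complex.continuous_re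
  have hs₀mem : s₀ ∈ {s : ℂ | w / 2 + 1 < s.re} := by
    simp only [Set.mem_ofPred_eq, hs₀, Complex.ofReal_re]; linarith
  have hnhds : ∀ᶠ s in 𝓝[≠] s₀, w / 2 + 1 < s.re :=
    mem_nhdsWithin_of_mem_nhds (hopen.mem_nhds hs₀mem)
  have hmer' : ∀ i s, MeromorphicAt (Λ i) s := fun i s => hmer i s (Set.mem_univ _)
  have hord : ∀ i s, meromorphicOrderAt (Λ i) s ≠ ⊤ := by
    intro i s
    refine (hmer i).meromorphicOrderAt_ne_top_of_isPreconnected isPreconnected_univ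
      (Set.mem_univ s₀) (Set.mem_univ s) ?_
    rw [meromorphicOrderAt_ne_top_iff_eventually_ne_zero (hmer' i s₀)]
    filter_upwards [hnhds] with s hs
    rw [hΛ i s hs]
    exact (hhalf s hs).1 i
  have hΦmer : ∀ s, MeromorphicAt (fun s => ∏ i, (Λ i s) ^ (n i)) s := by
    intro s
    have := MeromorphicAt.fun_prod (s := Finset.univ) (F := fun i s => (Λ i s) ^ (n i)) (x := s)
      (fun i _ => (hmer' i s).fun_zpow (n i))
    exact this
  have hΦ1 : ∀ s, ∀ᶠ z in 𝓝[≠] s, (∏ i, (Λ i z) ^ (n i)) = 1 := by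
    have hmer1 : MeromorphicOn (fun s => (∏ i, (Λ i s) ^ (n i)) - 1) Set.univ := fun s _ =>
      (hΦmer s).fun_sub (MeromorphicAt.const 1 s)
    have htop₀ : meromorphicOrderAt (fun s => (∏ i, (Λ i s) ^ (n i)) - 1) s₀ = ⊤ := by
      rw [meromorphicOrderAt_eq_top_iff]
      filter_upwards [hnhds] with s hs
      rw [sub_eq_zero, ← (hhalf s hs).2]
      exact Finset.prod_congr rfl fun i _ => by rw [hΛ i s hs]
    intro s
    have htop : meromorphicOrderAt (fun s => (∏ i, (Λ i s) ^ (n i)) - 1) s = ⊤ := by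
      by_contra hne
      exact hmer1.meromorphicOrderAt_ne_top_of_isPreconnected isPreconnected_univ
        (Set.mem_univ s) (Set.mem_univ s₀) hne htop₀
    rw [meromorphicOrderAt_eq_top_iff] at htop
    filter_upwards [htop] with z hz
    exact sub_eq_zero.mp hz
  refine ⟨hord, fun s => ?_, fun s hs => ?_⟩
  · have h1 : meromorphicOrderAt (fun s => ∏ i, (Λ i s) ^ (n i)) s =
        ∑ i, (n i : WithTop ℤ) * meromorphicOrderAt (Λ i) s := by
      have := meromorphicOrderAt_fun_prod (s := Finset.univ) (f := fun i s => (Λ i s) ^ (n i))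
        (x := s) (fun i _ => (hmer' i s).fun_zpow (n i))
      rw [this]
      exact Finset.sum_congr rfl fun i _ => fun_meromorphicOrderAt_zpow (hmer' i s)
    have h2 : meromorphicOrderAt (fun s => ∏ i, (Λ i s) ^ (n i)) s = 0 := by
      rw [meromorphicOrderAt_congr (f₂ := fun _ => (1 : ℂ)) (hΦ1 s), meromorphicOrderAt_const]
      simp
    have h3 : ((∑ i, n i * (meromorphicOrderAt (Λ i) s).untop₀ : ℤ) : WithTop ℤ) =
        ∑ i, (n i : WithTop ℤ) * meromorphicOrderAt (Λ i) s := by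
      push_cast
      refine Finset.sum_congr rfl fun i _ => ?_
      rw [WithTop.coe_untop₀_of_ne_top (hord i s)]
    have h4 : ((∑ i, n i * (meromorphicOrderAt (Λ i) s).untop₀ : ℤ) : WithTop ℤ) = (0 : ℤ) := by
      rw [h3, ← h1, h2]; rfl
    exact_mod_cast h4
  · have hcont : ContinuousAt (fun s => ∏ i, (Λ i s) ^ (n i)) s := by
      refine tendsto_finsetProd _ fun i _ => ?_
      exact ((hs i).1.continuousAt).zpow₀ (n i) (Or.inl (hs i).2)
    have h1 : Tendsto (fun s => ∏ i, (Λ i s) ^ (n i)) (𝓝[≠] s) (𝓝 (∏ i, (Λ i s) ^ (n i))) :=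
      hcont.tendsto.mono_left nhdsWithin_le_nhds
    have h2 : Tendsto (fun s => ∏ i, (Λ i s) ^ (n i)) (𝓝[≠] s) (𝓝 1) :=
      tendsto_const_nhds.congr' (by filter_upwards [hΦ1 s] with z hz; exact hz.symm)
    exact tendsto_nhds_unique h1 h2

end BKA
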